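import Pool.Agent.H2.DP.Pow

/-!
# d-separability and D-separability of powers: all thresholds occur

For every `N` in `{0, 1, 2, ...}` or `N = ∞` there is a zero-dimensional Tychonoff space `X` such that
* for every finite `k` with `1 ≤ k ≤ N` the power `X^k` is not d-separable, and even every countable
  union of discrete subspaces of `X^k` is nowhere dense;
* all other powers `X^k` (finite `k > N`, and all infinite exponents up to `(2^𝔠)⁺`) are D-separable.

For `N = 1` this is a space which is not d-separable and whose square is D-separable.

The points of the space are the closed subsets, with a last element, of a well-ordered set, with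
increasing labels (countable partial 0-1 functions), such that the labels below a limit point `δ` of
countable cofinality are below one of the `N` labels `h(δ, i)` which are guessed at `δ`. With `k ≤ N`
factors one can use different guesses for different factors, and an infinite game shows that the `k`-th
power is countably distributive. With `k > N` factors which have pairwise incompatible labels, two factors
would use the same guess at a common limit point, so there are no common limit points; hence the sequence
which runs through the factors cyclically and takes the next point of each of them is finite, and this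
gives a `σ`-disjoint `π`-base. For infinite exponents free coordinates are used for coding.
-/

set_option autoImplicit false

namespace Pool.Agent.Results.MP_4cef1b_gt.PowersThreshold

open Set Topology TopologicalSpace Cardinal

/-- `X` is d-separable: it has a dense subset which is a countable union of discrete subspaces. -/
def IsdSeparable (X : Type) [TopologicalSpace X] : Prop :=
  ∃ F : ℕ → Set X, (∀ n, DiscreteTopology (F n)) ∧ Dense (⋃ n, F n)

/-- `X` is D-separable: for every sequence of dense subsets `D n` there are discrete subspaces
`F n ⊆ D n` whose union is dense. -/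
def IsDSeparable (X : Type) [TopologicalSpace X] : Prop :=
  ∀ D : ℕ → Set X, (∀ n, Dense (D n)) →
    ∃ F : ℕ → Set X, (∀ n, F n ⊆ D n ∧ DiscreteTopology (F n)) ∧ Dense (⋃ n, F n)

theorem of_homeomorph {X Y : Type} [TopologicalSpace X] [TopologicalSpace Y] (e : X ≃ₜ Y)
    (h : IsDSeparable X) : IsDSeparable Y := by
  intro D hD
  obtain ⟨F, hF, hd⟩ := h (fun n => e ⁻¹' D n) fun n => (hD n).preimage e.isOpenMap
  refine ⟨fun n => e '' F n, fun n => ⟨?_, ?_⟩, ?_⟩
  · exact image_subset_iff.2 (hF n).1
  · have := (hF n).2
    exact (e.image (F n)).symm.isEmbedding.discreteTopology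
  · rw [← image_iUnion]
    exact e.surjective.denseRange.dense_image e.continuous hd

theorem dSep_of_homeomorph {X Y : Type} [TopologicalSpace X] [TopologicalSpace Y] (e : X ≃ₜ Y)
    (h : IsdSeparable X) : IsdSeparable Y := by
  obtain ⟨F, hF, hd⟩ := h
  refine ⟨fun n => e '' F n, fun n => ?_, ?_⟩
  · have := hF n
    exact (e.image (F n)).symm.isEmbedding.discreteTopology
  · rw [← image_iUnion]
    exact e.surjective.denseRange.dense_image e.continuous hd

theorem main (N : ℕ∞) : ∃ (X : Type) (_ : TopologicalSpace X), T35Space X ∧
    IsTopologicalBasis {U : Set X | IsClopen U} ∧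
    (∀ ι : Type, Nonempty ι → Finite ι → ENat.card ι ≤ N → ¬ IsdSeparable (ι → X) ∧
      ∀ F : ℕ → Set (ι → X), (∀ n, DiscreteTopology (F n)) → IsNowhereDense (⋃ n, F n)) ∧
    (∀ ι : Type, (Finite ι → N < ENat.card ι) → #ι ≤ Order.succ (2 ^ 𝔠) →
      IsDSeparable (ι → X)) := by
  classical
  let I : Type := {n : ℕ // (n : ℕ∞) < N}
  refine ⟨Pool.Agent.H2.DP.Node I, inferInstance, inferInstance,
    Pool.Agent.H2.DP.isTopologicalBasis_isClopen, ?_, ?_⟩
  · intro ι hne hfin hcard
    cases nonempty_fintype ι
    rw [ENat.card_eq_coe_fintype_card] at hcard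
    let g : ι → I := fun b => ⟨Fintype.equivFin ι b, lt_of_lt_of_le (by
      exact_mod_cast (Fintype.equivFin ι b).2) hcard⟩
    have hg : Function.Injective g := by
      intro a b hab
      apply (Fintype.equivFin ι).injective
      exact Fin.ext (congrArg (fun x : I => x.1) hab)
    have hnd : ∀ F : ℕ → Set (ι → Pool.Agent.H2.DP.Node I), (∀ n, DiscreteTopology (F n)) →
        IsNowhereDense (⋃ n, F n) := fun F hF => Pool.Agent.H2.DP.nowhereDense g hg F hF
    refine ⟨?_, hnd⟩
    rintro ⟨F, hF, hd⟩
    have h1 := hnd F hF
    rw [IsNowhereDense, hd.closure_eq, interior_univ] at h1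
    exact absurd h1 (univ_nonempty (α := ι → Pool.Agent.H2.DP.Node I)).ne_empty
  · intro ι hι hcard
    rcases finite_or_infinite ι with h | h
    · apply Pool.Agent.H2.DP.bigD_finite
      intro f hf
      have h1 := hι h
      cases nonempty_fintype ι
      rw [ENat.card_eq_coe_fintype_card] at h1
      obtain ⟨M, hM⟩ := ENat.ne_top_iff_exists.1 h1.ne_top
      have h2 : ∀ b, (f b).1 < M := by
        intro b
        have h3 := lt_of_lt_of_eq (f b).2 hM.symm
        exact_mod_cast h3
      have h5 : Fintype.card ι ≤ M := by
        have := Fintype.card_le_of_injective (fun b => (⟨(f b).1, h2 b⟩ : Fin M))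
          (fun a b hab => hf (Subtype.ext (Fin.mk.inj_iff.1 hab)))
        rwa [Fintype.card_fin] at this
      have h6 := lt_of_eq_of_lt hM h1
      exact absurd (by exact_mod_cast h6 : M < Fintype.card ι) (not_lt.2 h5)
    · apply Pool.Agent.H2.DP.bigD_infinite
      rw [Pool.Agent.H764R3.Stat.mk_KK, Pool.Agent.H2.DP.mk_code]
      exact hcard

/-- For every `N` (a natural number or `∞`) there is a zero-dimensional Tychonoff space `X` such that for
finite `k` with `1 ≤ k ≤ N` the power `X^k` is not d-separable, and even all countable unions of discrete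
subspaces of `X^k` are nowhere dense, while all the other powers with at most `(2^𝔠)⁺` factors, finite or
infinite, are D-separable. In particular there is a Tychonoff space which is neither d-separable nor
D-separable and whose square is D-separable. -/
theorem result :
    (∀ N : ℕ∞, ∃ (X : Type) (_ : TopologicalSpace X), T35Space X ∧
      IsTopologicalBasis {U : Set X | IsClopen U} ∧
      (∀ ι : Type, Nonempty ι → Finite ι → ENat.card ι ≤ N → ¬ IsdSeparable (ι → X) ∧
        ∀ F : ℕ → Set (ι → X), (∀ n, DiscreteTopology (F n)) → IsNowhereDense (⋃ n, F n)) ∧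
      (∀ ι : Type, (Finite ι → N < ENat.card ι) → #ι ≤ Order.succ (2 ^ 𝔠) →
        IsDSeparable (ι → X))) ∧
    ∃ (X : Type) (_ : TopologicalSpace X), T35Space X ∧ ¬ IsdSeparable X ∧ ¬ IsDSeparable X ∧
      IsDSeparable (X × X) := by
  refine ⟨main, ?_⟩
  obtain ⟨X, hX, h1, -, h2, h3⟩ := main 1
  have h4 : ¬ IsdSeparable X := by
    intro h
    refine (h2 Unit inferInstance inferInstance (by simp)).1 ?_
    exact dSep_of_homeomorph (Homeomorph.funUnique Unit X).symm h
  refine ⟨X, hX, h1, h4, ?_, ?_⟩
  · intro h
    apply h4
    obtain ⟨F, g1, g2⟩ := h (fun _ => univ) fun _ => dense_univ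
    exact ⟨F, fun n => (g1 n).2, g2⟩
  · refine of_homeomorph Homeomorph.finTwoArrow (h3 (Fin 2) (fun _ => by simp) ?_)
    exact (lt_aleph0_of_finite (Fin 2)).le.trans
      ((aleph0_le_continuum.trans (cantor _).le).trans (Order.le_succ _))

end Pool.Agent.Results.MP_4cef1b_gt.PowersThreshold
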